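import Mathlib
import Pool.Agent.Lib.helper29.Doeblin

namespace Pool.Agent.Results.MP_313e16_pr.NotMono

open Matrix Filter Topology Finset Pool.Agent.Lib.helper29.Doeblin

/-- the index `2 x_{i-1} + x_{i+1}` -/
def m {N : ℕ} [NeZero N] (x : Fin N → Bool) (i : Fin N) : Fin 4 :=
  2 * (if x (i - 1) then 1 else 0) + (if x (i + 1) then 1 else 0)

/-- the transition matrix -/
def P {K : Type} [Field K] (N : ℕ) [NeZero N] (p : Fin 4 → K) :
    Matrix (Fin N → Bool) (Fin N → Bool) K := fun x y =>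
  (∑ i, ((if y = Function.update x i true then p (m x i) else 0) +
    (if y = Function.update x i false then 1 - p (m x i) else 0))) / N

/-- the mean profit per turn under the law `π` -/
def mu {K : Type} [Field K] (N : ℕ) [NeZero N] (p : Fin 4 → K) (π : (Fin N → Bool) → K) : K :=
  (∑ x, π x * ∑ i, (p (m x i) - (1 - p (m x i)))) / N

/-- ergodicity with stationary law `π` -/
def Erg {S : Type} [Fintype S] [DecidableEq S] (Q : Matrix S S ℝ) (π : S → ℝ) : Prop :=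
  π ∈ stdSimplex ℝ S ∧ π ᵥ* Q = π ∧ (∀ ν ∈ stdSimplex ℝ S, ν ᵥ* Q = ν → ν = π) ∧
    ∀ ν ∈ stdSimplex ℝ S, Tendsto (fun n => ν ᵥ* Q ^ n) atTop (𝓝 π)

theorem P_cast (p : Fin 4 → ℚ) (x y : Fin 4 → Bool) :
    P 4 (fun j => (p j : ℝ)) x y = ((P 4 p x y : ℚ) : ℝ) := by
  simp only [P]
  push_cast [apply_ite ((↑) : ℚ → ℝ)]
  rfl

theorem mu_cast (p : Fin 4 → ℚ) (π : (Fin 4 → Bool) → ℚ) :
    mu 4 (fun j => (p j : ℝ)) (fun x => (π x : ℝ)) = ((mu 4 p π : ℚ) : ℝ) := by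
  simp only [mu]
  push_cast
  rfl

theorem erg (p : Fin 4 → ℚ) (π : (Fin 4 → Bool) → ℚ) (h0 : ∀ a b, 0 ≤ P 4 p a b)
    (h1 : ∀ a, ∑ b, P 4 p a b = 1)
    (h2 : ∀ a i, 1 / 80 ≤ P 4 p a (Function.update a i false))
    (h3 : ∀ a, 0 ≤ π a) (h4 : ∑ a, π a = 1) (h5 : ∀ b, ∑ a, π a * P 4 p a b = π b) :
    Erg (P 4 fun j => (p j : ℝ)) fun x => (π x : ℝ) := by
  obtain ⟨Q, hQ⟩ : ∃ Q, Q = P 4 fun j => (p j : ℝ) := ⟨_, rfl⟩
  have e : ∀ a b, Q a b = ((P 4 p a b : ℚ) : ℝ) := fun a b => by rw [hQ, P_cast]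
  rw [← hQ]
  have g0 : ∀ a b, 0 ≤ Q a b := fun a b => by rw [e]; exact_mod_cast h0 a b
  have g1 : ∀ a, ∑ b, Q a b = 1 := fun a => by simp only [e]; exact_mod_cast h1 a
  have g2 : ∀ a i, 1 / 80 ≤ Q a (Function.update a i false) := fun a i => by
    rw [e]
    have := (Rat.cast_le (K := ℝ)).2 (h2 a i)
    simpa using this
  have g4 : ∑ a, (π a : ℝ) = 1 := by exact_mod_cast h4
  have g5 : (fun x => (π x : ℝ)) ᵥ* Q = fun x => (π x : ℝ) := by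
    funext b
    simp only [vecMul, dotProduct, e]
    exact_mod_cast h5 b
  have st : ∀ (n : ℕ) (a c : Fin 4 → Bool) (i : Fin 4),
      (1 / 80) ^ n ≤ (Q ^ n) (Function.update a i false) c → (1 / 80) ^ (n + 1) ≤ (Q ^ (n + 1)) a c :=
    fun n a c i h => by
      refine le_trans ?_ (pow_succ_ge Q g0 g1 n a (Function.update a i false) c)
      rw [pow_succ']
      exact mul_le_mul (g2 a i) h (by positivity) (g0 _ _)
  have g6 : ∀ a, (1 / 80) ^ 4 ≤ (Q ^ 4) a fun _ => false := fun a => by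
    refine st _ _ _ 0 (st _ _ _ 1 (st _ _ _ 2 (st _ _ _ 3 ?_)))
    have : Function.update (Function.update (Function.update (Function.update a 0 false) 1 false) 2
        false) 3 false = fun _ => false := by
      funext i; fin_cases i <;> simp
    rw [this]
    simp
  have g7 : ∀ ν ∈ stdSimplex ℝ (Fin 4 → Bool),
      Tendsto (fun n => ν ᵥ* Q ^ n) atTop (𝓝 fun x => (π x : ℝ)) := fun ν hν =>
    tendsto_stat Q g0 g1 4 (by norm_num) _ _ (by positivity) g6 _ ν g5 (by rw [hν.2, g4])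
  exact ⟨⟨fun a => Rat.cast_nonneg.2 (h3 a), g4⟩, g5,
    fun ν hν h => unique_stat Q _ ν h (g7 ν hν), g7⟩

def idx (x : Fin 4 → Bool) : ℕ :=
  (x 0).toNat + 2 * (x 1).toNat + 4 * (x 2).toNat + 8 * (x 3).toNat

def p₁ : Fin 4 → ℚ := ![19 / 20, 1 / 20, 1 / 20, 1 / 20]

def p₂ : Fin 4 → ℚ := ![19 / 20, 1 / 20, 1 / 20, 1 / 5]

def π₁ (x : Fin 4 → Bool) : ℚ := ([76, 1444, 1444, 361, 1444, 16606, 361, 304, 1444, 361, 16606,
  304, 361, 304, 304, 16].getD (idx x) 0 : ℕ) / 41740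

def π₂ (x : Fin 4 → Bool) : ℚ := ([524, 9956, 9956, 4180, 9956, 50236, 4180, 3876, 9956, 4180,
  50236, 3876, 4180, 3876, 3876, 969].getD (idx x) 0 : ℕ) / 174013

theorem result : ∃ (p p' : Fin 4 → ℝ) (j : Fin 4) (π π' : (Fin 4 → Bool) → ℝ),
    (∀ i, p i ∈ Set.Ioo 0 1 ∧ p' i ∈ Set.Ioo 0 1) ∧ (∀ i, i ≠ j → p i = p' i) ∧ p j ≤ p' j ∧
    Erg (P 4 p) π ∧ Erg (P 4 p') π' ∧ mu 4 p' π' < mu 4 p π := by
  refine ⟨fun j => (p₁ j : ℝ), fun j => (p₂ j : ℝ), 3, fun x => (π₁ x : ℝ), fun x => (π₂ x : ℝ),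
    fun i => ?_, fun i hi => ?_, ?_, ?_, ?_, ?_⟩
  · fin_cases i <;> simp [p₁, p₂] <;> norm_num
  · fin_cases i <;> simp [p₁, p₂] at hi ⊢
  · simp [p₁, p₂]; norm_num
  · refine erg _ _ ?_ ?_ ?_ ?_ ?_ ?_ <;> decide +kernel
  · refine erg _ _ ?_ ?_ ?_ ?_ ?_ ?_ <;> decide +kernel
  · rw [mu_cast, mu_cast, Rat.cast_lt]
    decide +kernel

end Pool.Agent.Results.MP_313e16_pr.NotMono
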